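import Pool.Agent.Helper14.TT.M_AllD
import Pool.Agent.Helper28.LV.M_GenL
import Pool.Agent.Helper32.WK.M_Lft
import Pool.Agent.Helper97.WK.M_Lfm
import Pool.Agent.Helper62.TK2.M_BAS2
import Pool.Agent.Helper36.TK2.M_DIM2
import Pool.Agent.Helper66.TK2.M_NEX2
import Pool.Agent.Helper68.TK2.M_B42
import Pool.Agent.Helper80.TK2.M_EVU2
import Pool.Agent.Helper56.TK2.M_KS2
import Pool.Agent.Helper73.TK2.M_KK2
import Pool.Agent.Helper72.TK2.M_CRM2
import Pool.Agent.Helper43.TK2.M_INTG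
import Pool.Agent.Helper34.TK2.M_TA2
import Pool.Agent.Helper55.TK2.M_WD2

/-!
# Project TK2: Theorem A for the twisted path, `p = 2`, without hypotheses
-/

set_option autoImplicit false

namespace Pool.Agent.Helper76.TK2

open Pool.Agent.Helper14.CV Pool.Agent.Helper14.TT

/-- The triangular system and lifting. -/
theorem tl2 : TriD ∧ LifT := by
  have hBb := Pool.Agent.Helper14.CV.hBb
  have n1 := Pool.Agent.Helper10.CV.hN1
  have hk := Pool.Agent.Helper99.CV.hHk n1
  have hkS := Pool.Agent.Helper97.CV.hHkS hk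
  have far := Pool.Agent.Helper38.CV.hFar
  have plA := Pool.Agent.Helper38.CV.hPlA
  have plU := Pool.Agent.Helper7.CV.hPlU
  have edg := Pool.Agent.Helper98.CV.hEdg plA plU
  have rel := Pool.Agent.Helper71.CV.hRel plA edg
  have ex := Pool.Agent.Helper36.CV.hEx far Pool.Agent.Helper55.CV.hFex plA
  have uni := Pool.Agent.Helper86.CV.hUni far edg
  have hkB := Pool.Agent.Helper78.CV.hHkB hk hkS
  have hkF := Pool.Agent.Helper6.CV.hHkF plA plU edg hkB
  have low0 := Pool.Agent.Helper45.CV.hLow0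
  have prd := Pool.Agent.Helper7.CV.hPrd
  have sub := Pool.Agent.Helper10.CV.hSub low0 prd
  have grp := Pool.Agent.Helper26.CV.hGrp
  have lowA := Pool.Agent.Helper72.CV.hLowA low0 grp sub
  have hk3 := Pool.Agent.Helper16.CV.hHk3 plA edg hkF
  have hk5 := Pool.Agent.Helper75.CV.hHk5 plA edg hkF
  have ld3 := Pool.Agent.Helper57.CV.hLd3 low0 grp lowA
  have ld5 := Pool.Agent.Helper47.CV.hLd5 low0 grp lowA
  have sur := Pool.Agent.Helper81.CV.hSur low0 grp lowA hBb
  have led := Pool.Agent.Helper38.CV.hLed low0 grp lowA hBb sur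
  have x3 := Pool.Agent.Helper7.TT.hX3 (Pool.Agent.Helper61.TT.hNegT hBb)
    (Pool.Agent.Helper85.TT.hTree edg plA) edg plA
  have x7a := Pool.Agent.Helper52.TT.hX7A edg plA
  have x7b := Pool.Agent.Helper84.TT.hX7B hBb low0
  have itr := Pool.Agent.Helper53.TT.hItrD x3 x7a x7b Pool.Agent.Helper22.TT.hC5 rel hkB hk3 hk5
    low0 ld3 ld5
  exact ⟨Pool.Agent.Helper69.TT.hTriD ex low0 hBb led itr,
    Pool.Agent.Helper1.TT.hLifT rel (Pool.Agent.Helper24.CV.hLifp grp) ex uni⟩

/-- Lifting symbols of level `2^m` from `ZMod (2^M)`. -/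
theorem lft2 : Pool.Agent.Helper28.WK.Lft := by
  have far := Pool.Agent.Helper38.CV.hFar
  have plA := Pool.Agent.Helper38.CV.hPlA
  have plU := Pool.Agent.Helper7.CV.hPlU
  have edg := Pool.Agent.Helper98.CV.hEdg plA plU
  have rel := Pool.Agent.Helper71.CV.hRel plA edg
  have ex := Pool.Agent.Helper36.CV.hEx far Pool.Agent.Helper55.CV.hFex plA
  have uni := Pool.Agent.Helper86.CV.hUni far edg
  exact Pool.Agent.Helper32.WK.hLft rel ex uni Pool.Agent.Helper97.WK.hLfm

/-- THEOREM A for the twisted path at level `2^m`. -/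
theorem taD {D : ℕ} (h : Okd D) : Pool.Agent.Helper76.TG.TAt 2 D := by
  have n1 := Pool.Agent.Helper10.CV.hN1
  have hk := Pool.Agent.Helper99.CV.hHk n1
  have hkS := Pool.Agent.Helper97.CV.hHkS hk
  have hNrm := Pool.Agent.Helper14.CV.hNrm
  have com := Pool.Agent.Helper2.CV.hCom
  have lvl := Pool.Agent.Helper2.CV.hLvl hNrm
  have dec := Pool.Agent.Helper55.TT.hDectD sgnD hNrm lvl com
  have bast := Pool.Agent.Helper21.TT.hBastD sgnD hNrm
  have cnt := Pool.Agent.Helper33.TT.hCntD Pool.Agent.Helper53.TT.hCntT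
  have unb := Pool.Agent.Helper85.TT.hUnbT
  have bas := Pool.Agent.Helper62.TK2.hBas2 tl2.1 tl2.2 cnt
  have dim := Pool.Agent.Helper36.TK2.hDim2 dec bast ubT
  have nex := Pool.Agent.Helper66.TK2.hNex2 dec bast ubT lbD
  have evu := Pool.Agent.Helper80.TK2.hEvU2 hk hkS
  have ks := Pool.Agent.Helper56.TK2.hKs2 hNrm sgnD lvl com nex evu
  have kk := Pool.Agent.Helper73.TK2.hKk2 ks Pool.Agent.Helper68.TK2.hB42
  have crm := Pool.Agent.Helper72.TK2.hCrm2 unb bas dim lft2
  have int := Pool.Agent.Helper43.TK2.hIntG Pool.Agent.Helper28.LV.uiT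
  have ta := Pool.Agent.Helper34.TK2.hTa2 hNrm sgnD com unb crm kk int
  exact Pool.Agent.Helper55.TK2.hWd2 ta D h

end Pool.Agent.Helper76.TK2
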