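import Pool.Agent.Helper14.TT.StG
import Pool.Agent.Helper28.WK.StA
import Pool.Agent.Helper28.WK.StB
import Pool.Agent.Helper76.TG.Defs

/-!
# Project TK2: THEOREM A for the twisted path, level `2^m`

`D` as in project TT (`Okd D`: a prime `3` modulo `8`, `7`, or `5 l`), `c = χ(2) = jacobiSym 2 D`, `χ(-1) = -1`. The twisted path (`evX D`, `evXb D 1`) sees the symbols with `W = -wT D m = c^m`, `* = -1`. All statements are those of project WK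
(`Pool/Agent/Helper28/WK/StA.lean`, modules `Pool/Agent/*/WK/M_*.lean`) with signs. `u = act 2 0 0 1`, `W = act 0 (-1) (2^m) 0`, `W' = act 0 (-1) (2^(m-1)) 0`, `* = act (-1) 0 0 1`. The normal form is `c u ψ - ψ`.
-/

set_option autoImplicit false

namespace Pool.Agent.Helper76.TK2

open Pool.Agent.Helper14.CV Pool.Agent.Helper14.TT
open Pool.Agent.Helper76.TX (evX NewSymS NSS)
open Pool.Agent.Helper28.WK (SymP Tw Ok UIp Lft)
open Pool.Agent.Helper76.TG (Wzt TAt)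

/-- Facts on the conductors. -/
theorem okd_mod {D : ℕ} (h : Okd D) : D % 4 = 3 ∧ (D % 8 = 3 ∨ D % 8 = 7) := by
  rcases h with h | h | ⟨l, h1, h2, rfl⟩
  · omega
  · omega
  · omega

/-- BAS2. Integral family of symbols with odd determinant of the twisted values. Proof: exactly the proof of LBDOF (Pool/Agent/Helper36/TT/M_LBDof.lean) before the passage to complex numbers, cf. Pool/Agent/Helper81/WK/M_Bas.lean: `n = 2k` (`k ≥ 3`): `(r,s) = (k-1,k-1)`, `n = 2k+1` (`k ≥ 2`): `(r,s) = (k,k-1)`; TRID, LIFT; transport of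
an integral symbol `G` of level `(r+1, s+1)` to level `(0, r+s+2)` by `G0 (p,q) = G (2^(r+1) p, q)` with `evXb D 1 G0 = evXb D (2^(r+1)) G` (model: `hUnbT`, Pool/Agent/Helper85/TT/M_UnbT.lean, over `ℤ` instead of `ℂ`); the matrix modulo 2 is triangular. `n = 3, 4`: `DT D n = 0` (`dT w m = 0` for `m ≤ 4`), empty family, determinant `1`. -/
def Bas2 : Prop := ∀ D n : ℕ, Okd D → 3 ≤ n →
  ∃ (G : Fin (DT D n) → ℤ → ℤ → ℤ) (ij : Fin (DT D n) → ℕ × ℕ), (∀ k, Sym 0 n (G k)) ∧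
    Odd (Matrix.det (Matrix.of fun k l => evXb D 1 (G k) (ij l).1 (ij l).2))

/-- BAS2. -/
def StBAS2 : Prop := TriD → LifT → CntD → Bas2

/-- The content of DIM2. -/
def Dim2 : Prop := ∀ (D m : ℕ) (G : Fin (DT D m) → (ℤ → ℤ → ℂ)), Okd D → 3 ≤ m →
  (∀ k, Sym 0 m (G k)) → LinearIndependent ℂ (fun k => evX D (G k)) →
  ∀ H : ℤ → ℤ → ℂ, Sym 0 m H → evX D H ∈ Submodule.span ℂ (Set.range fun k => evX D (G k))

/-- DIM2. `finrank ((XS m).map (evX D)) ≤ DT D m` and finiteness as in Pool/Agent/Helper8/TT/M_CoreDof.lean; the span of the family is contained in it and has `finrank` `DT D m`. Model: Pool/Agent/Helper37/WK/M_Dim.lean. -/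
def StDIM2 : Prop := DectD → BastD → UBT → Dim2

/-- The content of NEX2. -/
def Nex2 : Prop := ∀ (D m : ℕ) (G0 G1 : ℤ → ℤ → ℂ), Okd D → 3 ≤ m →
  Sym 0 (m - 1) G0 → NewSymS m (wT D m) (-1) G1 → evX D G0 + evX D G1 = 0 → EqC G1 0

/-- NEX2. The old and the new part are independent. Model: Pool/Agent/Helper13/WK/M_Nex.lean, with the bounds of Pool/Agent/Helper8/TT/M_CoreDof.lean; `m = 3, 4`: `dT = 0`, so `EqC G1 0` by UBT; `m ≥ 5`: against LBD. -/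
def StNEX2 : Prop := DectD → BastD → UBT → LBD → Nex2

/-- B42. Level 4: a symbol `K` with `K∘* ≈ -K` is constant. Proof: inside BASTD (Pool/Agent/Helper21/TT/M_BastD.lean; see the docstring of `Bast` in Helper14/TT/StC.lean). -/
def B42 : Prop := ∀ K : ℤ → ℤ → ℂ, Sym 0 2 K → EqC (act (-1) 0 0 1 K) (-K) → EqC K 0

/-- The content of EVU2. -/
def EvU2 : Prop := ∀ (R : Type) (_ : AddCommGroup R) (D n : ℕ) (G : ℤ → ℤ → R), Odd D →
  Sym 0 n G → Sym 0 (n + 1) (act 2 0 0 1 G) ∧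
    ∀ i j : ℕ, evXb D 1 (act 2 0 0 1 G) i j = jacobiSym 2 D • evXb D 1 G i j

/-- EVU2. `u` maps symbols of level `2^n` to level `2^(n+1)`, commutes with `T_3`, `T_5` away from the origin (up to constants), and `eXb D 1 (u H) = χ(2) eXb D 1 H`: `∑_a χ(a) (H(2a, D) - H(2,0))`, `H(2,0) = H(1,0)` (`Homog`), `H(p + D, D) = H(p, D)` (translation, no constant: it fixes `(1,0)`), `a ↦ 2a` modulo `D` is a bijection,
`χ(2a) = χ(2) χ(a)`, `χ(2)² = 1`. Model: Pool/Agent/Helper16/WK/M_EvU.lean. -/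
def StEVU2 : Prop := StHk → StHkS → EvU2

/-- The content of KS2. -/
def Ks2 : Prop := ∀ (D m : ℕ) (G : ℤ → ℤ → ℂ), Okd D → 3 ≤ m → Sym 0 m G →
  EqC (act 0 (-1) (2 ^ m) 0 G) (-(wT D m • G)) → EqC (act (-1) 0 0 1 G) (-G) → evX D G = 0 →
  ∃ G' ψ : ℤ → ℤ → ℂ, Sym 0 (m - 1) G' ∧ Sym 0 (m - 1) ψ ∧
    EqC (act 0 (-1) (2 ^ (m - 1)) 0 G') (-(wT D (m - 1) • G')) ∧ EqC (act (-1) 0 0 1 G') (-G') ∧
    evX D G' = 0 ∧ EqC G (G' + (jacobiSym 2 D • act 2 0 0 1 ψ - ψ))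

/-- KS2. Step of the induction. Model: Pool/Agent/Helper76/WK/M_Ks.lean (the case `κ = -1`, `c = 1`; docstring of `StKs` in Pool/Agent/Helper28/WK/StA.lean). Put `κ = -wT D m = c^m`, `κ' = -wT D (m-1) = c κ`, `κ² = 1`. `t = act 2 1 0 2`, `σ = act 1 0 (2^(m-1)) 1`. With `A = (G + tG)/2`, `B = (G - tG)/2`: `Gpp = (A + σA)/2`, `Gpm = (A - σA)/2`,
`Gmp = (B + σB)/2`, `Gmm = (B - σB)/2`, `G = Gpp + Gpm + Gmp + Gmm`. All satisfy `* ≈ -1`; `W Gpp ≈ κ Gpp`, `W Gmp ≈ κ Gpm`, `W Gpm ≈ κ Gmp`, `W Gmm ≈ κ Gmm`: `Gmm` is a `NewSymS m (wT D m) (-1)`. `Gpp` and `Gmp` have level `2^(m-1)` (LVL a); by SGND `evX (W X) = κ evX X` for every symbol `X` of level `2^m`, so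
`evX Gpm = κ evX (W Gpm) = evX Gmp` and `evX G = evX (Gpp + 2 Gmp) + evX Gmm`: by NEX2 `Gmm ≈ 0`. `ω = Gpp/2 + Gmp` of level `2^(m-1)`, `* ω ≈ -ω`: `G ≈ ω + κ W ω`, `W ω = u (W' ω)` exactly (`act_act`). Take `ψ = κ' W' ω`, `G' = ω + κ' W' ω`: `G ≈ ω + κ u W' ω = G' + (c u ψ - ψ)`. `W'` normalises level `2^(m-1)`, `W' W' ω ≈ ω`, so
`W' G' ≈ κ' G'`; `* G' ≈ -G'`; `evX G' = evX G - c evX (u ψ) + evX ψ = 0` by EVU2 (`evX D = evXb D 1` up to `1 * a = a`; `c² = 1`). -/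
def StKS2 : Prop := StNrm → SgnD → StLvl → StCom → Nex2 → EvU2 → Ks2

/-- The content of KK2. -/
def Kk2 : Prop := ∀ (D m : ℕ) (G : ℤ → ℤ → ℂ), Okd D → 3 ≤ m → Sym 0 m G →
  EqC (act 0 (-1) (2 ^ m) 0 G) (-(wT D m • G)) → EqC (act (-1) 0 0 1 G) (-G) → evX D G = 0 →
  ∃ ψ : ℤ → ℤ → ℂ, Sym 0 (m - 1) ψ ∧ EqC (jacobiSym 2 D • act 2 0 0 1 ψ - ψ) G

/-- KK2. Induction on `m` with KS2; `m = 3`: `G'` has level 4: B42. Model: Pool/Agent/Helper47/WK/M_K.lean. -/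
def StKK2 : Prop := Ks2 → B42 → Kk2

/-- The content of CRM2. -/
def Crm2 : Prop := ∀ (D m M : ℕ) (g : ℤ → ℤ → ZMod (2 ^ M)), Okd D → 3 ≤ m → Sym 0 m g →
  (∀ i j : ℕ, evXb D 1 g i j = 0) → ∃ (d : ℤ) (G : ℤ → ℤ → ℤ), Odd d ∧ Sym 0 m G ∧
    (∀ i j : ℕ, evXb D 1 G i j = 0) ∧ EqC (fun p q => ((G p q : ℤ) : ZMod (2 ^ M))) (d • g)

/-- CRM2. Cramer. Model: Pool/Agent/Helper86/WK/M_Crm.lean. The complexification of an integral symbol `G` has `evX D = evXb D 1 G` (`UnbT` with `r = 0`, `s = m`: `2^0 * p = p`); `evXb` commutes with reduction modulo `2^M` (`D ≠ 0`; model: the last part of `hLifT`, Pool/Agent/Helper1/TT/M_LifT.lean). -/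
def StCRM2 : Prop := UnbT → Bas2 → Dim2 → Lft → Crm2

/-- The content of INTG. -/
def IntG : Prop := ∀ (p m : ℕ) (c : ℤ) (ψ : ℤ → ℤ → ℂ) (G : ℤ → ℤ → ℤ), 2 ≤ p → (c = 1 ∨ c = -1) → SymP p 0 m ψ →
  EqC (c • act p 0 0 1 ψ - ψ) (fun x y => ((G x y : ℤ) : ℂ)) →
  ∃ ψ' : ℤ → ℤ → ℤ, SymP p 0 m ψ' ∧ EqC (c • act p 0 0 1 ψ' - ψ') G

/-- INTG. Integrality, any `p`. Proof as Pool/Agent/Helper63/WK/M_Int.lean: `ψ0 = ψ - ψ(1,0)` with values in `ℂ ⧸ (Int.castAddHom ℂ).range` satisfies `c u ψ0 = ψ0` away from the origin (the constant in the hypothesis is `-G(1,0)` after the normalisation, an integer), so `act (p²) 0 0 1 ψ0 = ψ0`; `SymP p 0 m` implies `SymP (p²) 0 m`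
(`(p²)^m ∣ c'` implies `p^m ∣ c'`, `(p²)^0 = 1`); UIp for `p²`: `ψ0` is zero away from the origin; choose the integers. -/
def StINTG : Prop := UIp → IntG

/-- The content of TA2. -/
def Ta2 : Prop := ∀ (D m M : ℕ) (g : ℤ → ℤ → ZMod (2 ^ M)), Okd D → 3 ≤ m → Sym 0 m g →
  EqC (act 0 (-1) (2 ^ m) 0 g) (-(wT D m • g)) → EqC (act (-1) 0 0 1 g) (-g) →
  (∀ i j : ℕ, evXb D 1 g i j = 0) →
  ∃ ψ : ℤ → ℤ → ZMod (2 ^ M), Sym 0 (m - 1) ψ ∧
    EqC (jacobiSym 2 D • act 2 0 0 1 ψ - ψ) ((4 : ℤ) • g)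

/-- TA2. Proof as Pool/Agent/Helper82/WK/M_TA.lean: `d`, `G1` from CRM2. `G2 = H - * H`, `H = G1 + κ W G1`, `κ = -wT D m` (integral). Its complexification is a symbol (NRM) with `W G2 ≈ κ G2`, `* G2 ≈ -G2` (COM) and `evX D G2 = 0` (SGND; `evX D = evXb D 1` by UnbT with `r = 0`). By KK2 and INTG (`p = 2`, `SymP 2 r s` is `Sym r s`: theorem `symP_two`
in Pool/Agent/Helper28/WK/M_Ta2.lean) there is an integral `ψ1` of level `2^(m-1)` with `c u ψ1 - ψ1 ≈ G2`. Modulo `2^M`: `G2 ≡ d (g + κ W g - * (g + κ W g)) ≈ 4 d g` up to constants. Multiply by an integer `d'` with `d d' ≡ 1` modulo `2^M`. -/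
def StTA2 : Prop := StNrm → SgnD → StCom → UnbT → Crm2 → Kk2 → IntG → Ta2

/-- WD2. The interface. Proof as Pool/Agent/Helper28/WK/M_Ta2.lean: `Wzt 2 D 1 g` gives `evXb D 1 g i j = 0` (the word with `i` letters `3` and `j` letters `5`); `SymP 2 r s` is `Sym r s`; `jacobiSym (-1) D = -1` (`D % 4 = 3`, `okd_mod`), so `jacobiSym (-1) D * jacobiSym 2 D ^ m = wT D m`. -/
def StWD2 : Prop := Ta2 → ∀ D : ℕ, Okd D → TAt 2 D

end Pool.Agent.Helper76.TK2
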